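import Pool.Agent.LeoC.CountStmts
import Pool.Agent.Helper59_LeoK.Kcn

/-!
Squad LEOC, module KCC: at least `c Z` good `m`, balanced, pairwise different modulo squares, from the
final inequality of the counting part.
-/

set_option autoImplicit false

open NumberField NumberField.InfinitePlace NumberField.mixedEmbedding IsDedekindDomain Module
  MeasureTheory Filter Topology
open Pool.Agent.LeoK Pool.Agent.LeoG

open scoped Classical

namespace Pool.Agent.LeoC.H9

variable {k : Type} [Field k] [NumberField k]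

/-- Selection of pairwise inequivalent elements if all the classes are small. -/
lemma select {α : Type} (T : Finset α) (R : α → α → Prop) (hs : ∀ a b, R a b → R b a) (W : ℕ)
    (hW : ∀ s ∈ T, (T.filter fun t => R s t).card ≤ W) (hr : ∀ s ∈ T, R s s) :
    ∃ S ⊆ T, (∀ a ∈ S, ∀ b ∈ S, R a b → a = b) ∧ T.card ≤ S.card * W := by
  obtain ⟨P, hP⟩ : ∃ P : Finset α → Prop, ∀ S, P S ↔ ∀ a ∈ S, ∀ b ∈ S, R a b → a = b :=
    ⟨_, fun _ => Iff.rfl⟩
  obtain ⟨S, hS, hmax⟩ := Finset.exists_max_image (T.powerset.filter P) Finset.card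
    ⟨∅, by rw [Finset.mem_filter, hP]; simp⟩
  rw [Finset.mem_filter, Finset.mem_powerset, hP] at hS
  obtain ⟨hST, hS⟩ := hS
  refine ⟨S, hST, hS, ?_⟩
  have hcov : T ⊆ S.biUnion fun s => T.filter fun t => R s t := by
    intro t ht
    rw [Finset.mem_biUnion]
    by_contra hc
    push Not at hc
    have hn : ∀ s ∈ S, ¬ R s t := fun s hs' hR => hc s hs' (Finset.mem_filter.2 ⟨ht, hR⟩)
    have htS : t ∉ S := fun h => hn t h (hr t ht)
    have h1 := hmax (insert t S) (by
      rw [Finset.mem_filter, Finset.mem_powerset, hP]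
      refine ⟨Finset.insert_subset ht hST, ?_⟩
      intro a ha b hb hab
      rw [Finset.mem_insert] at ha hb
      rcases ha with rfl | ha <;> rcases hb with rfl | hb
      · rfl
      · exact absurd (hs _ _ hab) (hn b hb)
      · exact absurd hab (hn a ha)
      · exact hS a ha b hb hab)
    rw [Finset.card_insert_of_notMem htS] at h1
    omega
  exact (Finset.card_le_card hcov).trans
    (Finset.card_biUnion_le_card_mul _ _ _ fun s hs' => hW s (hST hs'))

/-- Two good integers of the cone whose product is a square differ by the square of a root of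
unity. -/
lemma torsion_of_sq (hevs : EvsStmt) (Φ : CFrame k) (m m' : 𝓞 k) (hm0 : m ≠ 0) (hm0' : m' ≠ 0)
    (hF : av (mixedEmbedding k (m : k)) ∈ Φ.F) (hF' : av (mixedEmbedding k (m' : k)) ∈ Φ.F)
    (hloc : ∀ p : HeightOneSpectrum (𝓞 k), LocOK p m)
    (hloc' : ∀ p : HeightOneSpectrum (𝓞 k), LocOK p m')
    (hsq : IsSquare ((m : k) * m')) :
    ∃ η : (𝓞 k)ˣ, η ∈ Units.torsion k ∧ m' = (η : 𝓞 k) ^ 2 * m := by
  obtain ⟨-, -, -, -, -, -, -, hav, -⟩ := hevs k
  obtain ⟨x, hx⟩ := hsq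
  have hxint : IsIntegral ℤ x := by
    apply IsIntegral.of_pow (n := 2) two_pos
    rw [pow_two, ← hx]
    exact (m * m').isIntegral_coe
  obtain ⟨x', hx'⟩ : ∃ x' : 𝓞 k, (x' : k) = x := ⟨⟨x, hxint⟩, rfl⟩
  have h4 : m * m' = x' ^ 2 := by
    apply RingOfIntegers.coe_injective
    rw [map_mul, map_pow]
    show (m : k) * m' = (x' : k) ^ 2
    rw [hx, hx', pow_two]
  have h5 : Ideal.span {m} = Ideal.span {m'} := by
    apply LeoK.H59.eq_of_sq (LeoK.H59.sqf_of_loc m hm0 fun p => (hloc p).sqf)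
      (LeoK.H59.sqf_of_loc m' hm0' fun p => (hloc' p).sqf) (C := Ideal.span {x'})
    rw [Ideal.span_singleton_mul_span_singleton, h4, Ideal.span_singleton_pow]
  rw [Ideal.span_singleton_eq_span_singleton] at h5
  obtain ⟨u, hu⟩ := h5
  have hmk : (m : k) ≠ 0 := by
    intro h; exact hm0 (by exact_mod_cast h)
  have h6 : (x / m) ^ 2 = ((u : 𝓞 k) : k) := by
    have h7 : (m' : k) = m * ((u : 𝓞 k) : k) := by rw [← hu]; push_cast; rfl
    rw [div_pow, pow_two x, ← hx, h7]
    field_simp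
  have h7 : IsIntegral ℤ (x / m) := by
    apply IsIntegral.of_pow (n := 2) two_pos
    rw [h6]
    exact RingOfIntegers.isIntegral_coe _
  obtain ⟨e, he⟩ : ∃ e : 𝓞 k, (e : k) = x / m := ⟨⟨_, h7⟩, rfl⟩
  have h8 : e ^ 2 = u := by
    apply RingOfIntegers.coe_injective
    rw [map_pow]
    show (e : k) ^ 2 = _
    rw [he, h6]
  have h9 : IsUnit e := by
    have : IsUnit (e ^ 2) := by rw [h8]; exact u.isUnit
    exact (isUnit_pow_iff two_ne_zero).1 this
  obtain ⟨η, rfl⟩ := h9
  have hm' : m' = (η : 𝓞 k) ^ 2 * m := by rw [← hu, ← h8]; ring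
  refine ⟨η, ?_, hm'⟩
  rw [Units.mem_torsion]
  have h10 : av (mixedEmbedding k (m' : k)) =
      fun v => v ((η : 𝓞 k) : k) ^ 2 * av (mixedEmbedding k (m : k)) v := by
    funext v
    rw [hav, hav, hm']
    push_cast
    rw [map_mul, map_pow]
  rw [h10] at hF'
  exact Φ.uni _ hF η hF'

/-- KCC. -/
theorem kcc (hcnt : CntStmt) (hadc : AdcStmt) (hfra : FraStmt) (hevs : EvsStmt) : KccStmt := by
  intro k _ _ N
  obtain ⟨Φ⟩ := hfra k
  obtain ⟨hfin, ⟨c, hc, hlow⟩, hbad⟩ := hcnt k Φ N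
  have hevs' := hevs k
  obtain ⟨-, -, -, -, -, -, -, hav, hnr⟩ := hevs'
  have : Fintype (Units.torsion k) := Fintype.ofFinite _
  set W : ℕ := Fintype.card (Units.torsion k) with hWdef
  have hW : 0 < W := Fintype.card_pos
  have hWr : (0 : ℝ) < W := by exact_mod_cast hW
  refine ⟨c / (4 * W), Φ.cF, by positivity, ?_⟩
  filter_upwards [hlow, hbad (1 / 4) (by norm_num), eventually_gt_atTop 0] with Z h1 h2 hZ
  set bad : Set (𝓞 k) := {m | m ∈ Mset Φ N Z ∧ ((∃ x : k, x ^ 2 = 3 * (m : k)) ∨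
        ∃ g : Q4 (𝓞 k), GIrr g ∧ mm g = m)} with hbaddef
  have hsub : bad ⊆ Mset Φ N Z := fun m hm => hm.1
  have hf := hfin Z
  have hfd : (Mset Φ N Z \ bad).Finite := hf.subset Set.sdiff_subset
  have hmem : ∀ m : 𝓞 k, m ∈ hfd.toFinset → m ∈ Mset Φ N Z ∧ m ∉ bad := by
    intro m hm
    rw [Set.Finite.mem_toFinset] at hm
    exact hm
  have hne : ∀ m : 𝓞 k, m ∈ Mset Φ N Z → m ≠ 0 := by
    rintro m ⟨-, hm, -⟩ rfl
    obtain ⟨v⟩ : Nonempty (InfinitePlace k) := inferInstance
    have := Φ.pos _ hm v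
    rw [hav] at this
    simp at this
  have hcard : c / 4 * Z ≤ (hfd.toFinset.card : ℝ) := by
    rw [← Set.ncard_eq_toFinset_card _ hfd]
    have h3 : ((Mset Φ N Z \ bad).ncard : ℝ) = (Mset Φ N Z).ncard - bad.ncard := by
      have := Set.ncard_sdiff_add_ncard_of_subset hsub hf
      have h4 : (((Mset Φ N Z \ bad).ncard + bad.ncard : ℕ) : ℝ) = (Mset Φ N Z).ncard := by
        rw [this]
      push_cast at h4
      linarith
    rw [h3]
    have h5 : (1 : ℝ) / (2 * 3 ^ un N) ≤ 1 / 2 := by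
      apply one_div_le_one_div_of_le (by norm_num)
      have : (1 : ℝ) ≤ 3 ^ un N := one_le_pow₀ (by norm_num)
      linarith
    have h6 : (0 : ℝ) ≤ ((Mset Φ N Z).ncard : ℝ) := by positivity
    nlinarith
  obtain ⟨S, hST, hS, hcS⟩ := select hfd.toFinset (fun m m' => IsSquare ((m : k) * m'))
    (fun a b h => by rwa [mul_comm] at h) W (by
      intro s hs
      have hsM := (hmem s hs).1
      refine (Finset.card_le_card (t := Finset.univ.image
        fun η : Units.torsion k => (((η : (𝓞 k)ˣ) : 𝓞 k)) ^ 2 * s) ?_).trans ?_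
      · intro t ht
        rw [Finset.mem_filter] at ht
        have htM := (hmem t ht.1).1
        obtain ⟨η, hη, h⟩ := torsion_of_sq hevs Φ s t (hne s hsM) (hne t htM) hsM.2.1 htM.2.1
          hsM.2.2.2.2 htM.2.2.2.2 ht.2
        rw [Finset.mem_image]
        exact ⟨⟨η, hη⟩, Finset.mem_univ _, h.symm⟩
      · exact Finset.card_image_le.trans (le_of_eq (by rw [Finset.card_univ])))
    (fun s _ => ⟨(s : k), rfl⟩)
  refine ⟨S, ?_, ?_, ?_⟩
  · have h3 : (hfd.toFinset.card : ℝ) ≤ S.card * W := by exact_mod_cast hcS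
    have h4 : c / 4 * Z ≤ S.card * W := hcard.trans h3
    have h5 : c / (4 * W) * Z = (c / 4 * Z) / W := by
      field_simp
    rw [h5, div_le_iff₀ hWr]
    exact h4
  · intro m hm
    obtain ⟨hm, hmb⟩ := hmem m (hST hm)
    have hm0 := hne m hm
    have hm2 := hm
    obtain ⟨hsg, hF, hZm, htwo, hloc⟩ := hm
    refine ⟨?_, hsg, ?_, ?_, ?_⟩
    · apply hadc k m hloc htwo
      intro x hx
      exact hmb ⟨hm2, Or.inl ⟨x, hx⟩⟩
    · have h3 := (hnr m hm0).2
      rw [Ideal.absNorm_span_singleton] at h3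
      rw [← h3]
      exact hZm
    · intro v v'
      have := Φ.cmp _ hF v v'
      rwa [hav, hav] at this
    · intro h3
      exact hmb ⟨hm2, Or.inr h3⟩
  · intro m hm m' hm' hsq
    exact hS m hm m' hm' hsq

end Pool.Agent.LeoC.H9
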